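import Pool.Agent.H13.K2S.OcFam

/-!
# (H6), the statement of the Fam layer
-/

set_option autoImplicit false

namespace Pool.K2S

open Finset Real
open Pool.Agent.H49.Ent Pool.Agent.H32.Dense Pool.STK Pool.KA Pool.KSAT

/-- **(H6)** -/
theorem h6_thm : H6Stmt := by
  classical
  intro J F i₀ A f w ρ κ hl hκ hB
  have hp := F.isLaw
  have hA : 0 < Pe F.p A := by
    by_contra hcon
    have h0 : Pe F.p A = 0 := le_antisymm (not_lt.1 hcon) (Pe_nonneg hp A)
    have h1 := hl.sum_one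
    have h2 : ∀ ω, Pool.Agent.H49.Ent.cond F.p A True ω = 0 := by
      intro ω
      unfold Pool.Agent.H49.Ent.cond
      split_ifs
      · show F.p ω / Pe F.p A = 0
        rw [h0, div_zero]
      · rfl
    rw [Finset.sum_congr rfl fun ω _ => h2 ω, Finset.sum_const_zero] at h1
    exact zero_ne_one h1
  by_contra hcon
  push Not at hcon
  obtain ⟨ζ, hζ⟩ := exists_fn_of_cpy hl (fun ω => f (Fam.pt F ω) (1 - i₀)) (slam F w)
    (fun a b : ℝ => |a - b| ≤ ρ) hcon.le
  rw [Pe_cond, le_div_iff₀ hA] at hζ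
  exact hB _ (fun ω hω => hω.1) hζ ⟨ζ, fun ω hω => hω.2⟩

end Pool.K2S
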