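import Pool.Agent.H9.K2.H6
import Pool.Agent.H9.K2.H6S
import Pool.Agent.H59.OC.OCB
import Pool.Agent.H59.OC.H1

/-!
# (H6) in a context

Two samples of a line in a context see different slopes, in the form consumed by the theorem on
one context.
-/

set_option autoImplicit false

namespace Pool.K2S

open Finset Real
open Pool.Agent.H49.Ent Pool.Agent.H32.Dense Pool.STK Pool.KA Pool.KSAT

/-- The two laws of pairs agree. -/
theorem dbl_eq_cpy {Ω S T : Type} [Fintype Ω] {q : Ω → ℝ} (hq : IsLaw q) {g : Ω → S} {b : Ω → T}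
    (h1 : Det q g b) (h2 : Det q b g) (w : Ω × Ω) : dbl q b w = cpy q g w := by
  classical
  obtain ⟨x, y⟩ := w
  by_cases hx0 : q x = 0
  · unfold dbl glue cpy
    simp [hx0]
  by_cases hy0 : q y = 0
  · unfold dbl glue cpy
    simp [hy0]
  have hx : 0 < q x := lt_of_le_of_ne (hq.nonneg x) (Ne.symm hx0)
  have hy : 0 < q y := lt_of_le_of_ne (hq.nonneg y) (Ne.symm hy0)
  have hl : law q b (b x) = law q g (g x) := by
    rw [law_eq_sum, law_eq_sum]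
    refine Finset.sum_congr rfl fun z _ => ?_
    by_cases hz0 : q z = 0
    · simp [hz0]
    have hz : 0 < q z := lt_of_le_of_ne (hq.nonneg z) (Ne.symm hz0)
    by_cases h : g z = g x
    · rw [if_pos h, if_pos (h1 z x hz hx h)]
    · rw [if_neg h, if_neg (fun h' => h (h2 z x hz hx h'))]
  by_cases h : g x = g y
  · have h' : b x = b y := h1 x y hx hy h
    have hl' : law q b (b y) = law q g (g y) := by rw [← h, ← h', hl]
    unfold dbl glue cpy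
    simp only [h, h', if_true, hl']
  · have h' : b x ≠ b y := fun h' => h (h2 x y hx hy h')
    unfold dbl glue cpy
    simp [h, h']

/-- The label of the line and of the context is the label of the window. -/
theorem slam_det {J : ℕ} (F : Fam 2 J) (w q l : ℕ) (i₀ : Fin 2) {z : F.Ω → Fin 2 → ℝ}
    (hz : ∃ g : (((Fin 2 → ℝ) × (Fin 2 → ℝ)) × F.ζ × ℕ) → Fin 2 → ℝ, ∀ ω, z ω = g (slam F w ω))
    (p : F.Ω → ℝ) : Det p (slam F w) (fun ω => (F.l ω, F.qlb w q l i₀ z ω)) ∧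
      Det p (fun ω => (F.l ω, F.qlb w q l i₀ z ω)) (slam F w) := by
  constructor
  · intro ω ω' _ _ h
    exact Prod.ext (Prod.ext_iff.mp h).1 (H1.qlb_of_slam F w q l i₀ hz h)
  · intro ω ω' _ _ h
    have h1 : F.l ω = F.l ω' := (Prod.ext_iff.mp h).1
    have h2 : F.qlb w q l i₀ z ω = F.qlb w q l i₀ z ω' := (Prod.ext_iff.mp h).2
    have h3 : F.Z ω = F.Z ω' := (Prod.ext_iff.mp h2).2
    have h4 : F.T1 w ω = F.T1 w ω' :=
      (Prod.ext_iff.mp (Prod.ext_iff.mp (Prod.ext_iff.mp h2).1).1).1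
    show (F.l ω, F.Z ω, F.T1 w ω) = (F.l ω', F.Z ω', F.T1 w ω')
    rw [h1, h3, h4]

/-- **(H6)** in a context, for one law: from the statement for the slopes at the exact points. -/
theorem h6_ctx {J : ℕ} {F : Fam 2 J} {i₀ : Fin 2} {A : F.Ω → Prop}
    (hl : IsLaw (Pool.Agent.H49.Ent.cond F.p A True))
    {f : (Fin 2 → ℤ) × (ℕ × F.ζ) → Fin 2 → ℝ} {w q l L : ℕ} {z : F.Ω → Fin 2 → ℝ}
    {φ : F.Ω → ℝ} (hw : Win F i₀ A f w l z) (hφ : Slp F i₀ A f w q l L z φ) {X : ℕ} {x₀ ρ ε : ℝ}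
    (hρ : (2 : ℝ) ^ (-(x₀ * X)) / 2 ^ l + 4 / 2 ^ L ≤ ρ)
    (h6 : Pe (cpy (Pool.Agent.H49.Ent.cond F.p A True) (slam F w))
      (fun x => |f (Fam.pt F x.1) (1 - i₀) - f (Fam.pt F x.2) (1 - i₀)| ≤ ρ) ≤ ε) :
    Pool.KAF.Pr (dbl (Pool.Agent.H49.Ent.cond F.p A True)
      (fun ω => (F.l ω, F.qlb w q l i₀ z ω)))
      {x | |2 ^ l * (φ x.1 - z x.1 (1 - i₀)) - 2 ^ l * (φ x.2 - z x.2 (1 - i₀))| <
        (2 : ℝ) ^ (-(x₀ * X))} ≤ ε := by
  classical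
  set Q := Pool.Agent.H49.Ent.cond F.p A True with hQ
  obtain ⟨d1, d2⟩ := slam_det F w q l i₀ hw.fn Q
  have e1 : dbl Q (fun ω => (F.l ω, F.qlb w q l i₀ z ω)) = cpy Q (slam F w) := by
    funext x
    exact dbl_eq_cpy hl d1 d2 x
  rw [e1]
  refine le_trans ?_ h6
  show Pe (cpy Q (slam F w)) (fun x => x ∈ {x : F.Ω × F.Ω | |2 ^ l * (φ x.1 - z x.1 (1 - i₀)) -
    2 ^ l * (φ x.2 - z x.2 (1 - i₀))| < (2 : ℝ) ^ (-(x₀ * X))}) ≤ _
  rw [Pe_eq, Pe_eq]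
  refine Finset.sum_le_sum fun x _ => ?_
  have hx0 := cpy_nn hl.nonneg (slam F w) x
  by_cases h0 : cpy Q (slam F w) x = 0
  · rw [h0]
    simp
  by_cases h : |2 ^ l * (φ x.1 - z x.1 (1 - i₀)) - 2 ^ l * (φ x.2 - z x.2 (1 - i₀))| <
      (2 : ℝ) ^ (-(x₀ * X))
  swap
  · rw [if_neg (show ¬ (x ∈ {x : F.Ω × F.Ω | |2 ^ l * (φ x.1 - z x.1 (1 - i₀)) -
      2 ^ l * (φ x.2 - z x.2 (1 - i₀))| < (2 : ℝ) ^ (-(x₀ * X))}) from h)]
    split_ifs
    · exact hx0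
    · exact le_rfl
  rw [if_pos (show x ∈ {x : F.Ω × F.Ω | |2 ^ l * (φ x.1 - z x.1 (1 - i₀)) -
      2 ^ l * (φ x.2 - z x.2 (1 - i₀))| < (2 : ℝ) ^ (-(x₀ * X))} from h)]
  have hg : slam F w x.1 = slam F w x.2 := by
    by_contra hne
    apply h0
    unfold cpy
    rw [if_neg hne]
  have hq1 : Q x.1 ≠ 0 := by
    intro h1
    apply h0
    unfold cpy
    rw [h1, zero_mul, zero_div, ite_self]
  have hq2 : Q x.2 ≠ 0 := by
    intro h1
    apply h0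
    unfold cpy
    rw [h1, mul_zero, zero_div, ite_self]
  have hA : ∀ ω, Q ω ≠ 0 → A ω := by
    intro ω hω
    by_contra hn
    apply hω
    rw [hQ]
    unfold Pool.Agent.H49.Ent.cond
    rw [if_neg (by simpa using hn)]
  have a1 := hφ.2 _ (hA _ hq1)
  have a2 := hφ.2 _ (hA _ hq2)
  have hz : z x.1 = z x.2 := by
    obtain ⟨g, hg'⟩ := hw.fn
    rw [hg', hg', hg]
  have h2l : (0 : ℝ) < 2 ^ l := by positivity
  have e2 : 2 ^ l * (φ x.1 - z x.1 (1 - i₀)) - 2 ^ l * (φ x.2 - z x.2 (1 - i₀)) =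
      2 ^ l * (φ x.1 - φ x.2) := by
    rw [hz]
    ring
  have h' : |φ x.1 - φ x.2| ≤ (2 : ℝ) ^ (-(x₀ * X)) / 2 ^ l := by
    rw [e2, abs_mul, abs_of_pos h2l] at h
    rw [le_div_iff₀ h2l, mul_comm]
    exact h.le
  rw [if_pos]
  have key : |f (Fam.pt F x.1) (1 - i₀) - f (Fam.pt F x.2) (1 - i₀)| ≤
      |f (Fam.pt F x.1) (1 - i₀) - φ x.1| + |φ x.1 - φ x.2| +
        |f (Fam.pt F x.2) (1 - i₀) - φ x.2| := by
    have e3 : f (Fam.pt F x.1) (1 - i₀) - f (Fam.pt F x.2) (1 - i₀) =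
        (f (Fam.pt F x.1) (1 - i₀) - φ x.1) + (φ x.1 - φ x.2) +
          -(f (Fam.pt F x.2) (1 - i₀) - φ x.2) := by ring
    rw [e3]
    refine (abs_add_le _ _).trans ?_
    rw [abs_neg]
    exact add_le_add (abs_add_le _ _) le_rfl
  have e4 : (4 : ℝ) / 2 ^ L = 2 / 2 ^ L + 2 / 2 ^ L := by ring
  linarith

/-- **(H6)** in a context, as a claim: if the frames are not conserved to precision `l' u` on the
windows of exponent `w u`, then for every context of these windows whose frame has precision `l`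
with `l' u + 1 ≤ l + x₀ X`, two samples of a line see slopes which differ by `2 ^ (- x₀ X)` in the
unit of the context. -/
theorem h6_ctx_claim {a R : ℝ} {N : ℕ} (i₀ : Fin 2) (l' w : ℕ) {ε : ℝ} (hε : 0 < ε) :
    Claim (m := 2) a R (fun J F A => ¬ Cn F i₀ (l' * (J / N)) (w * (J / N)) A →
      ∀ (f n : (Fin 2 → ℤ) × (ℕ × F.ζ) → Fin 2 → ℝ) (z : F.Ω → Fin 2 → ℝ) (φ : F.Ω → ℝ)
      (q l L H X : ℕ) (x₀ : ℝ), Frm F i₀ A H f n → Win F i₀ A f (w * (J / N)) l z →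
      Slp F i₀ A f (w * (J / N)) q l L z φ → l' * (J / N) ≤ H → l' * (J / N) + 3 ≤ L →
      ((l' * (J / N) : ℕ) : ℝ) + 1 ≤ l + x₀ * X →
      Pool.KAF.Pr (dbl (Pool.Agent.H49.Ent.cond F.p A True)
        (fun ω => (F.l ω, F.qlb (w * (J / N)) q l i₀ z ω)))
        {x | |2 ^ l * (φ x.1 - z x.1 (1 - i₀)) - 2 ^ l * (φ x.2 - z x.2 (1 - i₀))| <
          (2 : ℝ) ^ (-(x₀ * X))} ≤ ε) := by
  classical
  obtain ⟨ε', hε'⟩ : ∃ ε', ε' = min ε 1 := ⟨_, rfl⟩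
  have h1 : 0 < ε' := by rw [hε']; exact lt_min hε one_pos
  have h2 : ε' * ε' ≤ ε := by
    have a1 : ε' ≤ ε := by rw [hε']; exact min_le_left _ _
    have a2 : ε' ≤ 1 := by rw [hε']; exact min_le_right _ _
    nlinarith
  have hj : (1 - i₀) ≠ i₀ := by fin_cases i₀ <;> decide
  have hL : Claim (m := 2) a R (fun J F A => IsLaw (Pool.Agent.H49.Ent.cond F.p A True)) := by
    refine Claim.of one_pos 0 fun J _ F A hS => ?_
    have hA0 : 0 < Pe F.p A := lt_of_lt_of_le (Real.exp_pos _) hS.2.2.2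
    exact isLaw_cond F.isLaw hA0
  refine Claim.mono 0 ?_ ((h6_claim (a := a) (R := R) (N := N) i₀ (1 - i₀) hj l' w h1).and hL)
  rintro J - F A ⟨hc, hl⟩ hn f n z φ q l L H X x₀ hF hW hS hH hLL hx
  have hon : ∀ ω, A ω → |F.d ω (1 - i₀) - f (Fam.pt F ω) (1 - i₀) * F.d ω i₀ -
      n (Fam.pt F ω) (1 - i₀)| ≤ 1 / 2 ^ (l' * (J / N)) := fun ω hω =>
    (hF.on ω hω (1 - i₀)).trans
      (one_div_le_one_div_of_le (by positivity) (pow_le_pow_right₀ (by norm_num) hH))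
  obtain ⟨h3, -⟩ := hc hn (fun u => f u (1 - i₀)) (fun u => n u (1 - i₀)) hon
  refine h6_ctx hl hW hS ?_ (h3.trans h2)
  obtain ⟨M, hM⟩ : ∃ M, M = l' * (J / N) := ⟨_, rfl⟩
  rw [← hM] at hx hLL ⊢
  have b1 : (4 : ℝ) / 2 ^ L ≤ 1 / 2 ^ M / 2 := by
    rw [div_div, div_le_div_iff₀ (by positivity) (by positivity)]
    have : (2 : ℝ) ^ (M + 3) ≤ 2 ^ L := pow_le_pow_right₀ (by norm_num) hLL
    rw [pow_add] at this
    linarith
  have b2 : (2 : ℝ) ^ (-(x₀ * X)) / 2 ^ l ≤ 1 / 2 ^ M / 2 := by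
    have e1 : (2 : ℝ) ^ l = (2 : ℝ) ^ (l : ℝ) := (Real.rpow_natCast 2 l).symm
    have e2 : (1 : ℝ) / 2 ^ M / 2 = (2 : ℝ) ^ (-((M : ℝ) + 1)) := by
      rw [Real.rpow_neg (by norm_num), Real.rpow_add (by norm_num), Real.rpow_natCast,
        Real.rpow_one]
      field_simp
    rw [e1, e2, ← Real.rpow_sub (by norm_num)]
    exact Real.rpow_le_rpow_of_exponent_le (by norm_num) (by linarith)
  linarith

end Pool.K2S
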