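import Pool.Agent.H9.K2.Stmts

/-!
# Maximal families, regular functions, two samples with a common label
-/

set_option autoImplicit false

namespace Pool.KA

open Finset Real
open Pool.Agent.H49.Ent Pool.Agent.H32.Dense Pool.STK

variable {m J : ℕ}

/-- `τ`-maximal families. -/
def Fam.Mx (F : Fam m J) (a R τ : ℝ) : Prop := F.Tm (τ * J) ∧ (R - τ) * J ≤ F.Ga a

/-- The side information is constant. -/
def Fam.Tr (F : Fam m J) : Prop := ∃ z, ∀ ω, F.p ω ≠ 0 → F.Z ω = z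

open Classical in
/-- `f` is `(h, e)`-regular: at most `exp (h + e)` values, of probability at most `exp (-(h - e))`
each. -/
def Rg {Ω S : Type} [Fintype Ω] (p : Ω → ℝ) (f : Ω → S) (h e : ℝ) : Prop :=
  (((Finset.univ.filter (fun ω => p ω ≠ 0)).image f).card : ℝ) ≤ Real.exp (h + e) ∧
    ∀ s, law p f s ≤ Real.exp (-(h - e))

/-- The basic list of functions is regular. -/
def Fam.Rb (F : Fam m J) (e : ℝ) : Prop :=
  (∃ h, Rg F.p (F.D J) h e) ∧ (∃ h, Rg F.p (fun ω => (F.X J ω, F.T ω)) h e) ∧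
    (∃ h, Rg F.p F.T h e) ∧ (∃ h, Rg F.p (fun ω => (F.l ω, F.T ω)) h e) ∧ ∃ h, Rg F.p F.l h e

/-- Rounded lines. -/
noncomputable def Fam.rnd (F : Fam m J) : Fam m J where
  Ω := F.Ω
  ζ := F.ζ
  fin := F.fin
  p := F.p
  u := fun ω i => (⌊(2 : ℝ) ^ J * F.u ω i⌋ : ℝ) / 2 ^ J
  d := fun ω i => (⌊(2 : ℝ) ^ J * F.d ω i⌋ : ℝ) / 2 ^ J
  T := F.T
  Z := F.Z
  isLaw := F.isLaw
  dir := fun ω i => by
    have h := abs_le.mp (F.dir ω i)
    have hJ : (0 : ℝ) < 2 ^ J := by positivity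
    rw [abs_le, le_div_iff₀ hJ, div_le_iff₀ hJ]
    constructor
    · have h1 : (((-(2 ^ J : ℤ)) : ℤ) : ℝ) ≤ (2 : ℝ) ^ J * F.d ω i := by
        push_cast
        nlinarith
      have h2 : (-(2 ^ J : ℤ)) ≤ ⌊(2 : ℝ) ^ J * F.d ω i⌋ := Int.le_floor.mpr h1
      have h3 : (((-(2 ^ J : ℤ)) : ℤ) : ℝ) ≤ (⌊(2 : ℝ) ^ J * F.d ω i⌋ : ℝ) := by exact_mod_cast h2
      push_cast at h3
      linarith
    · have h1 := Int.floor_le ((2 : ℝ) ^ J * F.d ω i)
      nlinarith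
  tim := F.tim

open Classical in
/-- The law of two samples, conditionally independent given their common label `c`. -/
noncomputable def cpy {Ω S : Type} [Fintype Ω] (p : Ω → ℝ) (c : Ω → S) (w : Ω × Ω) : ℝ :=
  if c w.1 = c w.2 then p w.1 * p w.2 / law p c (c w.1) else 0

end Pool.KA
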