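import Pool.Agent.H9.KA.Stmts

/-!
# The class `(a, R)`: definitions

Near-maximisers of the functional `H(D_J | Z) - a H(X_J | t, Z)` among all families whose times are
uniform up to small deficits.
-/

set_option autoImplicit false

namespace Pool.KA

open Finset Real
open Pool.Agent.H49.Ent Pool.Agent.H32.Dense Pool.STK

variable {m J : ℕ}

/-- The functional of the class `(a, R)`. -/
noncomputable def Fam.Ga (F : Fam m J) (a : ℝ) : ℝ :=
  CH F.p (F.D J) F.Z - a * CH F.p (F.X J) F.W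

/-- Upper bound `R` for the functional. -/
def UBa (m : ℕ) (a R : ℝ) : Prop :=
  ∀ η > 0, ∃ θ > 0, ∃ J₀ : ℕ, ∀ J ≥ J₀, ∀ F : Fam m J, F.Tm (θ * J) → F.Ga a ≤ (R + η) * J

/-- The value `R` of the functional is attained. -/
def LBa (m : ℕ) (a R : ℝ) : Prop :=
  ∀ η > 0, ∀ θ > 0, ∀ J₀ : ℕ, ∃ J ≥ J₀, ∃ F : Fam m J, F.Tm (θ * J) ∧ (R - η) * J ≤ F.Ga a

/-- Near-maximisers: time deficit `θ J`, error `η J`. -/
def Fam.NMa (F : Fam m J) (a R η θ : ℝ) : Prop := F.Tm (θ * J) ∧ (R - η) * J ≤ F.Ga a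

/-- The probability of the value of `Y`, given `W`. -/
noncomputable def cpr {Ω S U : Type} [Fintype Ω] (p : Ω → ℝ) (Y : Ω → S) (W : Ω → U) (ω : Ω) : ℝ :=
  law p (fun w => (Y w, W w)) (Y ω, W ω) / law p W (W ω)

end Pool.KA
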