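import Pool.Agent.H13.K2S.Skel

/-!
# (H6): if the frame of the windows is not conserved, it is nonatomic given the line

If the frames are not conserved to precision `l` on the windows of exponent `w`, then the slopes at
two times of the window, conditionally independent given the line and the window, agree up to
`2 ^ (-l)` with exponentially small probability only. The same holds conditionally on every label
of the window (outside a small set of values of the label).
-/

set_option autoImplicit false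

namespace Pool.K2S

open Finset Real
open Pool.Agent.H49.Ent Pool.Agent.H32.Dense Pool.STK Pool.KA Pool.KSAT

section Pure

variable {Ω S T : Type} [Fintype Ω]

theorem cpy_nn {q : Ω → ℝ} (hq : ∀ ω, 0 ≤ q ω) (g : Ω → S) (w : Ω × Ω) : 0 ≤ cpy q g w := by
  classical
  unfold cpy
  split_ifs
  · exact div_nonneg (mul_nonneg (hq _) (hq _)) (law_nonneg hq _ _)
  · exact le_rfl

open Classical in
/-- The two samples, given the value of a label which is a function of `g`. -/
theorem cpy_fib {q : Ω → ℝ} (hq : IsLaw q) (g : Ω → S) {b : Ω → T} (hb : Det q g b) {β : T}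
    (hβ : law q b β ≠ 0) (w : Ω × Ω) :
    law q b β * cpy (Pool.Agent.H49.Ent.cond q b β) g w = if b w.1 = β then cpy q g w else 0 := by
  classical
  obtain ⟨x, y⟩ := w
  by_cases hx0 : q x = 0
  · have h1 : Pool.Agent.H49.Ent.cond q b β x = 0 := by
      unfold Pool.Agent.H49.Ent.cond
      rw [hx0, zero_div, ite_self]
    unfold cpy
    simp [h1, hx0]
  by_cases hy0 : q y = 0
  · have h1 : Pool.Agent.H49.Ent.cond q b β y = 0 := by
      unfold Pool.Agent.H49.Ent.cond
      rw [hy0, zero_div, ite_self]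
    unfold cpy
    simp [h1, hy0]
  have hx : 0 < q x := lt_of_le_of_ne (hq.nonneg x) (Ne.symm hx0)
  have hy : 0 < q y := lt_of_le_of_ne (hq.nonneg y) (Ne.symm hy0)
  by_cases hg : g x = g y
  · have hbb : b x = b y := hb x y hx hy hg
    by_cases h : b x = β
    · have h' : b y = β := hbb ▸ h
      have e1 : Pool.Agent.H49.Ent.cond q b β x = q x / law q b β := by
        unfold Pool.Agent.H49.Ent.cond
        rw [if_pos h]
      have e2 : Pool.Agent.H49.Ent.cond q b β y = q y / law q b β := by
        unfold Pool.Agent.H49.Ent.cond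
        rw [if_pos h']
      have e3 : law (Pool.Agent.H49.Ent.cond q b β) g (g x) = law q g (g x) / law q b β := by
        rw [law_eq_sum, law_eq_sum, Finset.sum_div]
        refine Finset.sum_congr rfl fun z _ => ?_
        by_cases hz0 : q z = 0
        · have h1 : Pool.Agent.H49.Ent.cond q b β z = 0 := by
            unfold Pool.Agent.H49.Ent.cond
            rw [hz0, zero_div, ite_self]
          simp [h1, hz0]
        have hz : 0 < q z := lt_of_le_of_ne (hq.nonneg z) (Ne.symm hz0)
        by_cases h2 : g z = g x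
        · have h3 : b z = β := by rw [hb z x hz hx h2, h]
          rw [if_pos h2, if_pos h2]
          unfold Pool.Agent.H49.Ent.cond
          rw [if_pos h3]
        · rw [if_neg h2, if_neg h2, zero_div]
      have hl : law q g (g x) ≠ 0 := (law_pos hq.nonneg g hx).ne'
      unfold cpy
      simp only [hg, if_true, h]
      rw [← hg, e1, e2, e3]
      field_simp
    · have e1 : Pool.Agent.H49.Ent.cond q b β x = 0 := by
        unfold Pool.Agent.H49.Ent.cond
        rw [if_neg h]
      unfold cpy
      simp [h, e1]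
  · unfold cpy
    simp [hg]

/-- The probability of an event for the two samples, given the value of the label. -/
theorem Pe_cpy_fib {q : Ω → ℝ} (hq : IsLaw q) (g : Ω → S) {b : Ω → T} (hb : Det q g b) {β : T}
    (hβ : law q b β ≠ 0) (E : Ω × Ω → Prop) :
    law q b β * Pe (cpy (Pool.Agent.H49.Ent.cond q b β) g) E =
      Pe (cpy q g) (fun w => b w.1 = β ∧ E w) := by
  classical
  rw [Pe_eq, Pe_eq, Finset.mul_sum]
  refine Finset.sum_congr rfl fun w _ => ?_
  have h := cpy_fib hq g hb hβ w
  by_cases hE : E w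
  · rw [if_pos hE, h]
    by_cases h1 : b w.1 = β
    · rw [if_pos h1, if_pos ⟨h1, hE⟩]
    · rw [if_neg h1, if_neg (fun h2 => h1 h2.1)]
  · rw [if_neg hE, mul_zero, if_neg (fun h2 => hE h2.2)]

/-- Markov's inequality for the values of the label. -/
theorem cpy_markov {q : Ω → ℝ} (hq : IsLaw q) (g : Ω → S) {b : Ω → T} (hb : Det q g b)
    (E : Ω × Ω → Prop) {ρ : ℝ} (hρ : 0 ≤ ρ) (hE : Pe (cpy q g) E ≤ ρ * ρ) :
    Pe q (fun ω => ρ < Pe (cpy (Pool.Agent.H49.Ent.cond q b (b ω)) g) E) ≤ ρ := by
  classical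
  rcases hρ.eq_or_lt with h0 | h0
  · -- the limit case
    subst h0
    rw [zero_mul] at hE
    rw [Pe_eq]
    refine Finset.sum_nonpos fun ω _ => ?_
    by_cases hz : q ω = 0
    · simp [hz]
    have hω : 0 < q ω := lt_of_le_of_ne (hq.nonneg ω) (Ne.symm hz)
    have hl := law_pos hq.nonneg b hω
    have h1 := Pe_cpy_fib hq g hb hl.ne' E
    have h2 : Pe (cpy q g) (fun w => b w.1 = b ω ∧ E w) ≤ Pe (cpy q g) E := by
      rw [Pe_eq, Pe_eq]
      refine Finset.sum_le_sum fun w _ => ?_
      by_cases h3 : b w.1 = b ω ∧ E w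
      · rw [if_pos h3, if_pos h3.2]
      · rw [if_neg h3]
        split_ifs
        · exact cpy_nn hq.nonneg g w
        · exact le_rfl
    have h3 : Pe (cpy (Pool.Agent.H49.Ent.cond q b (b ω)) g) E ≤ 0 := by
      by_contra hcon
      push Not at hcon
      have := mul_pos hl hcon
      linarith
    rw [if_neg (by linarith)]
  -- the sum over the values of the label
  have key : ∑ ω, (q ω * Pe (cpy (Pool.Agent.H49.Ent.cond q b (b ω)) g) E) = Pe (cpy q g) E := by
    have h1 : ∀ ω, q ω * Pe (cpy (Pool.Agent.H49.Ent.cond q b (b ω)) g) E =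
        ∑ w : Ω × Ω, (q ω / law q b (b ω)) * (if b w.1 = b ω ∧ E w then cpy q g w else 0) := by
      intro ω
      by_cases hz : q ω = 0
      · simp [hz]
      have hω : 0 < q ω := lt_of_le_of_ne (hq.nonneg ω) (Ne.symm hz)
      have hl := law_pos hq.nonneg b hω
      have h2 := Pe_cpy_fib hq g hb hl.ne' E
      rw [Pe_eq (cpy q g)] at h2
      have h3 : ∑ w : Ω × Ω, (if b w.1 = b ω ∧ E w then cpy q g w else 0) =
          law q b (b ω) * Pe (cpy (Pool.Agent.H49.Ent.cond q b (b ω)) g) E := by
        rw [h2]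
        exact Finset.sum_congr rfl fun w _ => by split_ifs <;> rfl
      rw [← Finset.mul_sum, h3]
      field_simp
    rw [Finset.sum_congr rfl fun ω _ => h1 ω, Finset.sum_comm, Pe_eq]
    refine Finset.sum_congr rfl fun w _ => ?_
    by_cases hE : E w
    · rw [if_pos hE]
      by_cases hz : cpy q g w = 0
      · simp [hz]
      have hw : 0 < q w.1 := by
        refine lt_of_le_of_ne (hq.nonneg _) fun h => hz ?_
        unfold cpy
        rw [← h, zero_mul, zero_div, ite_self]
      have hl := law_pos hq.nonneg b hw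
      calc ∑ ω, (q ω / law q b (b ω)) * (if b w.1 = b ω ∧ E w then cpy q g w else 0)
          = ∑ ω, (if b ω = b w.1 then q ω else 0) * (cpy q g w / law q b (b w.1)) := by
            refine Finset.sum_congr rfl fun ω _ => ?_
            by_cases h : b ω = b w.1
            · rw [if_pos h, if_pos ⟨h.symm, hE⟩, h]
              ring
            · rw [if_neg h, if_neg (fun h' => h h'.1.symm)]
              ring
        _ = cpy q g w := by
            rw [← Finset.sum_mul, ← law_eq_sum]
            field_simp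
    · rw [if_neg hE]
      refine Finset.sum_eq_zero fun ω _ => ?_
      rw [if_neg (fun h => hE h.2), mul_zero]
  have h2 : ρ * Pe q (fun ω => ρ < Pe (cpy (Pool.Agent.H49.Ent.cond q b (b ω)) g) E) ≤
      ∑ ω, (q ω * Pe (cpy (Pool.Agent.H49.Ent.cond q b (b ω)) g) E) := by
    rw [Pe_eq q, Finset.mul_sum]
    refine Finset.sum_le_sum fun ω _ => ?_
    have h3 : 0 ≤ Pe (cpy (Pool.Agent.H49.Ent.cond q b (b ω)) g) E :=
      law_nonneg (fun w => cpy_nn (cond_nonneg hq.nonneg b (b ω)) g w) E True
    split_ifs with h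
    · rw [mul_comm]
      exact mul_le_mul_of_nonneg_left h.le (hq.nonneg ω)
    · rw [mul_zero]
      exact mul_nonneg (hq.nonneg ω) h3
  have h3 : ρ * Pe q (fun ω => ρ < Pe (cpy (Pool.Agent.H49.Ent.cond q b (b ω)) g) E) ≤ ρ * ρ := by
    linarith
  exact le_of_mul_le_mul_left h3 h0

end Pure

/-- A frame with normalised slopes, from one scalar slope. -/
theorem OnL.of_scalar {Ω U : Type} [Fintype Ω] {i₀ j₁ : Fin 2} (hj : j₁ ≠ i₀) {r : ℝ} (hr : 0 ≤ r)
    {pt : Ω → U} {d : Ω → Fin 2 → ℝ} {A : Ω → Prop} {f n : U → ℝ}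
    (h : ∀ ω, A ω → |d ω j₁ - f (pt ω) * d ω i₀ - n (pt ω)| ≤ r) :
    OnL i₀ r pt d A (fun u j => if j = i₀ then 1 else f u) (fun u j => if j = i₀ then 0 else n u) := by
  intro ω hω j
  by_cases hji : j = i₀
  · simp [hji, hr]
  · have : j = j₁ := by
      fin_cases i₀ <;> fin_cases j <;> fin_cases j₁ <;> simp_all
    subst this
    simpa [hji] using h ω hω

/-- **(H6)** If the frames are not conserved to precision `l u` on the windows of exponent `w u`,
then the slopes at two times of a window are far apart, outside a small probability, and this holds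
given almost every value of any label of the window. -/
theorem h6_claim {a R : ℝ} {N : ℕ} (i₀ j₁ : Fin 2) (hj : j₁ ≠ i₀) (l w : ℕ) {ε : ℝ}
    (hε : 0 < ε) : Claim (m := 2) a R (fun J F A => ¬ Cn F i₀ (l * (J / N)) (w * (J / N)) A →
      ∀ f n : (Fin 2 → ℤ) × (ℕ × F.ζ) → ℝ,
      (∀ ω, A ω → |F.d ω j₁ - f (Fam.pt F ω) * F.d ω i₀ - n (Fam.pt F ω)| ≤
        1 / 2 ^ (l * (J / N))) →
      Pe (cpy (Pool.Agent.H49.Ent.cond F.p A True) (slam F (w * (J / N))))
        (fun v => |f (Fam.pt F v.1) - f (Fam.pt F v.2)| ≤ 1 / 2 ^ (l * (J / N))) ≤ ε * ε ∧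
      ∀ {T : Type} (b : F.Ω → T), Det (Pool.Agent.H49.Ent.cond F.p A True)
        (slam F (w * (J / N))) b →
        Pe (Pool.Agent.H49.Ent.cond F.p A True) (fun ω => ε < Pe (cpy (Pool.Agent.H49.Ent.cond
          (Pool.Agent.H49.Ent.cond F.p A True) b (b ω)) (slam F (w * (J / N))))
          (fun v => |f (Fam.pt F v.1) - f (Fam.pt F v.2)| ≤ 1 / 2 ^ (l * (J / N)))) ≤ ε) := by
  classical
  refine Claim.one ⟨1, fun J F => ![RotU i₀ (1 / 2 ^ (l * (J / N))) (1 / 2 ^ (l * (J / N)))
    (Fam.pt F) (slam F (w * (J / N))) F.d], ?_⟩ fun κ hκ => ?_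
  · intro J F i
    fin_cases i
    exact RotU.hered _ _ _ _ _ _
  obtain ⟨J₂, hJ₂⟩ := exists_nat_gt (-Real.log (ε * ε) / κ)
  refine ⟨1, one_pos, J₂, fun J hJ F A hS hSb hn f n hf => ?_⟩
  have hp := F.isLaw
  have hA0 : 0 < Pe F.p A := lt_of_lt_of_le (Real.exp_pos _) hS.2.2.2
  have hexp : Real.exp (-(κ * J)) ≤ ε * ε := by
    have h1 : -Real.log (ε * ε) / κ < J := hJ₂.trans_le (by exact_mod_cast hJ)
    rw [div_lt_iff₀ hκ] at h1
    rw [← Real.exp_log (mul_pos hε hε)]
    refine Real.exp_le_exp.2 ?_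
    linarith
  have hr : (0 : ℝ) ≤ 1 / 2 ^ (l * (J / N)) := by positivity
  have hon := OnL.of_scalar (i₀ := i₀) (j₁ := j₁) hj hr hf
  have h1 := Stb.rotU_cpy_lt hp hA0 (hSb 0) hn hon (wn' := slam F (w * (J / N))) (φ := id)
    (fun _ => rfl)
  have hE : Pe (cpy (Pool.Agent.H49.Ent.cond F.p A True) (slam F (w * (J / N))))
      (fun v => |f (Fam.pt F v.1) - f (Fam.pt F v.2)| ≤ 1 / 2 ^ (l * (J / N))) ≤ ε * ε := by
    refine le_trans ?_ (h1.le.trans hexp)
    have hq := isLaw_cond hp hA0
    rw [Pe_eq, Pe_eq]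
    refine Finset.sum_le_sum fun v _ => ?_
    have hv := cpy_nn hq.nonneg (slam F (w * (J / N))) v
    by_cases h : |f (Fam.pt F v.1) - f (Fam.pt F v.2)| ≤ 1 / 2 ^ (l * (J / N))
    · rw [if_pos h, if_pos]
      intro j
      by_cases hji : j = i₀
      · simp [hji]
      · simpa [hji] using h
    · rw [if_neg h]
      split_ifs
      · exact hv
      · exact le_rfl
  refine ⟨hE, fun b hb => ?_⟩
  exact cpy_markov (isLaw_cond hp hA0) _ hb _ hε.le hE

end Pool.K2S
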