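import Pool.Agent.H77.S6.LAB4
import Pool.Agent.H9.K2.H6

/-!
# (H6) and (H7) of the rising step: planks and directions are not conserved

If the windows of exponent `v` have no plank label of thickness `1 / 2 ^ P2`, then the frames of
finer planks at two samples of a line in a window agree to the corresponding precision with
exponentially small probability only. The same holds for the directions of the fans.
-/

set_option autoImplicit false

namespace Pool.KS6

open Finset Real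
open Pool.Agent.H49.Ent Pool.Agent.H32.Dense Pool.STK Pool.KA Pool.KSAT Pool.K3 Pool.K2S

section Pure

variable {J : ℕ}

/-- The event of a regular law has positive probability. -/
theorem pos_of_cond {Ω : Type} [Fintype Ω] {p : Ω → ℝ} (hp : IsLaw p) {A : Ω → Prop}
    (hl : IsLaw (Pool.Agent.H49.Ent.cond p A True)) : 0 < Pe p A := by
  classical
  by_contra hcon
  have h0 : Pe p A = 0 := le_antisymm (not_lt.1 hcon) (Pe_nonneg hp A)
  have h1 := hl.sum_one
  have h2 : ∀ ω, Pool.Agent.H49.Ent.cond p A True ω = 0 := by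
    intro ω
    unfold Pool.Agent.H49.Ent.cond
    split_ifs
    · show p ω / Pe p A = 0
      rw [h0, div_zero]
    · rfl
  rw [Finset.sum_congr rfl fun ω _ => h2 ω, Finset.sum_const_zero] at h1
  exact zero_ne_one h1

/-- Two frames agree to the precisions `l2`, `sg`, `ag`. -/
def Agr (l2 sg ag : ℕ) (y y' : Pln) : Prop :=
  |y.e - y'.e| ≤ 1 / 2 ^ l2 ∧ |y.s - y'.s| ≤ 1 / 2 ^ sg ∧
    |Ae y.c y.s y'.c y'.s y'.e| ≤ 1 / 2 ^ ag

/-- The constant of the production of plank labels. -/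
noncomputable def KC (C : ℝ) : ℝ :=
  8 * (3 * Real.log 15 + 6 * Real.log (16 * C + 21)) + Real.log 2

theorem exp_KC (C : ℝ) : Real.exp (-KC C) =
    Real.exp (-(8 * (3 * Real.log 15 + 6 * Real.log (16 * C + 21)))) / 2 := by
  unfold KC
  rw [neg_add, Real.exp_add, Real.exp_neg (Real.log 2), Real.exp_log (by norm_num)]
  rfl

/-- **(H6)** If no large part of the event has plank labels of thickness `1 / 2 ^ P2` on the
windows of exponent `v`, then finer planks at two samples of a line in such a window do not agree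
to the corresponding precision. -/
theorem h6r (F : Fam 3 J) {Qt : ℕ} (hQJ : Qt ≤ J) {i0 iu iN : Fin 3}
    (hi : ∀ j : Fin 3, j = i0 ∨ j = iu ∨ j = iN)
    {v W lam P l2 sg ag P2 : ℕ} {C κ : ℝ} (hC : 1 ≤ C) {A : F.Ω → Prop}
    (hl : IsLaw (Pool.Agent.H49.Ent.cond F.p A True))
    {y : F.Ω → Pln} (hI : ∀ ω, A ω → Inc i0 iu iN W lam P C (y ω) (F.t ω) (F.x ω) (F.d ω))
    {φ : (Fin 3 → ℤ) × (ℕ × F.ζ) → Pln} (hφ : ∀ ω, A ω → y ω = φ (ptq F Qt ω))
    (h1 : l2 ≤ lam) (h2 : v + l2 ≤ Qt) (h3 : ag ≤ sg + l2) (h4 : P2 ≤ v + ag)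
    (h5 : W + P2 ≤ v + P) (h6 : P2 ≤ Qt)
    (hB : ∀ B : F.Ω → Prop, Sub B A → Real.exp (-(κ + KC C)) * Pe F.p A ≤ Pe F.p B →
      ¬ LABq F Qt i0 iu iN v l2 P2 2 B) :
    Pe (cpy (Pool.Agent.H49.Ent.cond F.p A True) (slam F v))
      (fun x => Agr l2 sg ag (y x.1) (y x.2)) ≤ Real.exp (-κ) := by
  classical
  have hp := F.isLaw
  have hA := pos_of_cond hp hl
  by_contra hcon
  push Not at hcon
  obtain ⟨ζ, hζ⟩ := exists_fn_of_cpy hl y (slam F v) (Agr l2 sg ag) hcon.le
  rw [Pe_cond, le_div_iff₀ hA] at hζ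
  obtain ⟨A', hA'⟩ : ∃ A' : F.Ω → Prop, A' = fun ω => A ω ∧ Agr l2 sg ag (y ω) (ζ (slam F v ω)) :=
    ⟨_, rfl⟩
  have hAA : Sub A' A := by rw [hA']; exact fun ω hω => hω.1
  have hPA : Real.exp (-κ) * Pe F.p A ≤ Pe F.p A' := by rw [hA']; exact hζ
  have hA'0 : 0 < Pe F.p A' := lt_of_lt_of_le (mul_pos (Real.exp_pos _) hA) hPA
  obtain ⟨B, hBA, hPB, hLB⟩ := lab_prod F hQJ hi hC hA'0 (fun ω hω => hI ω (hAA ω hω))
    (fun ω hω => hφ ω (hAA ω hω)) (ζ := ζ)
    (fun ω hω => by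
      rw [hA'] at hω
      exact hω.2) h1 h2 h3 h4 h5 h6
  refine hB B (fun ω hω => hAA ω (hBA ω hω)) ?_ hLB
  rw [← exp_KC] at hPB
  refine le_trans ?_ hPB
  rw [neg_add, Real.exp_add]
  have := mul_le_mul_of_nonneg_left hPA (Real.exp_pos (-KC C)).le
  nlinarith [Real.exp_pos (-κ), Real.exp_pos (-KC C)]

end Pure

end Pool.KS6
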