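import Pool.Agent.H9.K2.Defs

/-!
# The class `(a, R)`: statements of the modules
-/

set_option autoImplicit false

namespace Pool.KA

open Finset Real
open Pool.Agent.H49.Ent Pool.Agent.H32.Dense Pool.STK

/-- **Existence.** If `K'(m)` fails, then for every `a > 1` close to `1` the largest value `R` of the
functional is positive. -/
def AEXStmt : Prop :=
  ∀ m : ℕ, ¬ KP m → ∃ a₀ : ℝ, 1 < a₀ ∧ ∀ a : ℝ, 1 < a → a ≤ a₀ →
    ∃ R : ℝ, 0 < R ∧ R ≤ m * Real.log 2 ∧ UBa m a R ∧ LBa m a R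

/-- The functional of the four operations. -/
def AOPStmt : Prop :=
  ∀ m : ℕ, ∃ C : ℝ, 0 ≤ C ∧ ∀ (J : ℕ) (F : Fam m J) (a : ℝ), 0 ≤ a →
    (∀ (κ : Type) (z : F.Ω → κ), (F.cnd z).Ga a = CH F.p (F.D J) (fun ω => (z ω, F.Z ω)) -
      a * CH F.p (F.X J) (fun ω => (z ω, F.W ω))) ∧
    (∀ g ≤ J, (F.win g).Ga a = CH F.p (F.D (J - g)) (F.c g) -
      a * CH F.p (F.X J) (fun ω => (F.T ω, F.c g ω))) ∧
    (∀ (q : ℕ) (hq : q ≤ J) (e : ℝ), F.Tm e →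
      |(F.tub q hq).Ga a - (CH F.p (F.D J) (fun ω => (F.L q ω, F.Z ω)) -
        a * CH F.p (F.X J) (fun ω => (F.L q ω, F.W ω)))| ≤ a * (e + C)) ∧
    (∀ (x : ℕ) (hx : x ≤ J) (e : ℝ), F.Tm e →
      |(F.trc x hx).Ga a - (CH F.p (F.D x) F.Z - a * CH F.p (F.X x) F.W)| ≤ a * (e + C))

/-- (P1) Side information: what `z` says on the position is paid by what it says on the
direction. In particular a label which is visible from the position has small entropy. -/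
def AP1Stmt : Prop :=
  ∀ (m J : ℕ) (F : Fam m J) (a R η : ℝ) (κ : Type) (z : F.Ω → κ), 1 ≤ a →
    (R - η) * J ≤ F.Ga a → (F.cnd z).Ga a ≤ (R + η) * J →
    a * (CH F.p z F.W - CH F.p z (fun ω => (F.X J ω, F.W ω))) ≤
      (CH F.p z F.Z - CH F.p z (fun ω => (F.D J ω, F.Z ω))) + 2 * η * J ∧
    ∀ e e' : ℝ, F.Tm e →
      CH F.p z (fun ω => (F.l ω, F.Z ω)) ≤ CH F.p z (fun ω => (F.T ω, (F.l ω, F.Z ω))) + e' →
      (a - 1) * CH F.p z F.Z ≤ 2 * η * J + a * (CH F.p z (fun ω => (F.X J ω, F.W ω)) + e + e')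

/-- (P2) Tubes: the fans are active at all scales `q`. -/
def AP2Stmt : Prop :=
  ∀ m : ℕ, ∃ C : ℝ, 0 ≤ C ∧ ∀ (J q : ℕ) (hq : q ≤ J) (F : Fam m J) (a R η e : ℝ), 1 ≤ a →
    0 ≤ η → F.Tm e →
    (R - η) * J ≤ F.Ga a → (F.tub q hq).Ga a ≤ (R + η) * ((J : ℝ) - q) →
    (a - 1) * CH F.p (F.L q) F.Z + CH F.p (F.L q) (fun ω => (F.D J ω, F.Z ω)) + R * q ≤
      a * CH F.p (F.D q) (fun ω => (F.X J ω, F.W ω)) + 2 * η * J + 2 * a * (e + C)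

/-- (P3) Truncation: the rate of the positions on `(x, J]` is at most `(m log 2 - R) / a`. -/
def AP3Stmt : Prop :=
  ∀ m : ℕ, ∃ C : ℝ, 0 ≤ C ∧ ∀ (J x : ℕ) (hx : x ≤ J) (F : Fam m J) (a R η e : ℝ), 1 ≤ a →
    0 ≤ η → F.Tm e →
    (R - η) * J ≤ F.Ga a → (F.trc x hx).Ga a ≤ (R + η) * x →
    a * CH F.p (F.X J) (fun ω => (F.X x ω, F.W ω)) ≤
      CH F.p (F.D J) (fun ω => (F.D x ω, F.Z ω)) - R * ((J : ℝ) - x) + 2 * η * J + a * (e + C) ∧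
    a * CH F.p (F.X J) (fun ω => (F.X x ω, F.W ω)) ≤
      (m * Real.log 2 - R) * ((J : ℝ) - x) + 2 * η * J + a * (e + C)

/-- (P4) Windows. -/
def AP4Stmt : Prop :=
  ∀ m : ℕ, ∃ C : ℝ, 0 ≤ C ∧ ∀ (J g : ℕ) (F : Fam m J) (a R η e : ℝ), g ≤ J → 1 ≤ a → 0 ≤ η →
    F.Tm e →
    (R - η) * J ≤ F.Ga a → (F.win g).Ga a ≤ (R + η) * ((J : ℝ) - g) →
    (a - 1) * CH F.p (F.X g) F.W + R * g ≤
      (CH F.p (F.D J) F.Z - CH F.p (fun ω => (F.X g ω, F.D (J - g) ω)) F.W) +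
        2 * η * J + 2 * a * (e + C)

open Classical in
/-- (P5) Restriction to an event of probability at least `π₀`. -/
def AP5Stmt : Prop :=
  ∀ (m : ℕ) (a R : ℝ), 1 ≤ a → 0 < R → UBa m a R → ∀ π₀ > 0, ∀ η > 0, ∀ θ > 0,
    ∃ η₁ > 0, ∃ θ₁ > 0, ∃ J₁ : ℕ, ∀ J ≥ J₁, ∀ F : Fam m J, F.NMa a R η₁ θ₁ →
      ∀ A : F.Ω → Prop, π₀ ≤ law F.p A True →
        ∃ h : IsLaw (cond F.p A True), (F.res A True h).NMa a R η θ

open Classical in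
/-- (P6) Pointwise form of (P2): fans are exponentially nonatomic. -/
def AP6Stmt : Prop :=
  ∀ (m : ℕ) (a R : ℝ), 1 ≤ a → 0 < R → UBa m a R → ∀ x > 0, ∀ ε > 0, ∀ π₀ > 0,
    ∃ η₁ > 0, ∃ θ₁ > 0, ∃ J₁ : ℕ, ∀ J ≥ J₁, ∀ F : Fam m J, F.NMa a R η₁ θ₁ →
      ∀ q : ℕ, q ≤ J → x * J ≤ q →
        (∑ ω, if Real.exp (-((R / a - ε) * q)) < cpr F.p (F.D q) (fun ω => (F.X J ω, F.W ω)) ω
          then F.p ω else 0) ≤ π₀

/-- The Bayes formula, in the form used for contexts: what `Y` says on `X`. -/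
def ABYStmt : Prop :=
  ∀ (Ω S U V : Type) [Fintype Ω] (p : Ω → ℝ), (∀ ω, 0 ≤ p ω) →
    ∀ (X : Ω → S) (Y : Ω → U) (W : Ω → V),
      CH p X W - CH p X (fun ω => (Y ω, W ω)) = CH p Y W - CH p Y (fun ω => (X ω, W ω))

end Pool.KA
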