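import Pool.Agent.H9.K2.Defs2

/-!
# Maximal families, regular functions, two samples: statements of the modules
-/

set_option autoImplicit false

namespace Pool.KA

open Finset Real
open Pool.Agent.H49.Ent Pool.Agent.H32.Dense Pool.STK

/-- Existence of `τ`-maximal families. -/
def MEXStmt : Prop :=
  ∀ (m : ℕ) (a R : ℝ), LBa m a R → ∀ τ > 0, ∀ J₀ : ℕ, ∃ J ≥ J₀, ∃ F : Fam m J, F.Mx a R τ

/-- (1.3.1) The operations preserve maximality, at linear cost. -/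
def MOPStmt : Prop :=
  ∀ (m : ℕ) (a R : ℝ), 1 ≤ a → 0 < R → ∃ C : ℝ, 0 ≤ C ∧ ∀ (J : ℕ) (F : Fam m J) (τ c : ℝ),
    1 ≤ J → 0 ≤ τ → 0 ≤ c → c ≤ 1 / 4 → 1 ≤ τ * J → F.Mx a R τ →
    (∀ (κ : Type) (z : F.Ω → κ), CH F.p z F.Z ≤ c * J → (F.cnd z).Mx a R (C * (τ + c))) ∧
    (∀ (q : ℕ) (hq : q ≤ J), (q : ℝ) ≤ c * J → (F.tub q hq).Mx a R (C * (τ + c))) ∧
    (∀ g : ℕ, g ≤ J → (g : ℝ) ≤ c * J → (F.win g).Mx a R (C * (τ + c))) ∧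
    (∀ (x : ℕ) (hx : x ≤ J), ((J : ℝ) - x) ≤ c * J → (F.trc x hx).Mx a R (C * (τ + c)))

/-- (1.3.2) One value of the side information. -/
def MZVStmt : Prop :=
  ∀ (m : ℕ) (a R : ℝ), 1 ≤ a → 0 < R → UBa m a R → ∀ τ' > 0, ∃ τ > 0, ∃ J₁ : ℕ, ∀ J ≥ J₁,
    ∀ F : Fam m J, F.Mx a R τ → ∃ z, ∃ h : IsLaw (cond F.p F.Z z), (F.res F.Z z h).Mx a R τ' ∧
      (F.res F.Z z h).Tr

/-- (1.3.3) Rounded lines. -/
def MRNStmt : Prop :=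
  ∀ m : ℕ, ∃ C : ℝ, 0 ≤ C ∧ ∀ (J : ℕ) (F : Fam m J) (a e : ℝ), 0 ≤ a → F.Tm e →
    F.rnd.Tm e ∧ |F.rnd.Ga a - F.Ga a| ≤ a * C ∧
    CH F.p F.rnd.l F.W ≤ CH F.p (F.X J) F.W + CH F.p (F.D J) F.Z + C

/-- (1.4.1) Regularity is hereditary. -/
def RHEStmt : Prop :=
  ∀ (Ω S K : Type) [Fintype Ω] (p : Ω → ℝ), IsLaw p → ∀ (f : Ω → S) (h e : ℝ), Rg p f h e →
    |H p f - h| ≤ e ∧ ∀ (A : Ω → K) (k : K) (c : ℝ), Real.exp (-c) ≤ law p A k →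
      Rg (cond p A k) f h (e + c) ∧ |H (cond p A k) f - H p f| ≤ 2 * e + c

/-- (1.4.2) Existence of regular types. -/
def RTYStmt : Prop :=
  ∀ (N : ℕ) (B e ζ : ℝ), 0 < B → 0 < e → 0 < ζ → ∃ M : ℕ, ∀ (J : ℕ), 1 ≤ J →
    ∀ (Ω : Type) (S : Fin N → Type) [Fintype Ω] (p : Ω → ℝ), IsLaw p →
    ∀ f : ∀ i, Ω → S i, (∀ i, H p (f i) ≤ B * J) →
    ∃ (A : Ω → Fin M) (bad : Fin M), law p A bad ≤ ζ ∧
      ∀ k ≠ bad, Real.exp (-(e * J)) ≤ law p A k →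
        ∀ i, ∃ h, Rg (cond p A k) (f i) h (2 * e * J)

open Classical in
/-- (1.4.3) Regular maximal families. -/
def RMXStmt : Prop :=
  ∀ (m : ℕ) (a R : ℝ), 1 ≤ a → 0 < R → UBa m a R →
    ∀ (N : ℕ) (B e τ' : ℝ), 0 < B → 0 < e → 0 < τ' → ∃ τ > 0, ∃ π₀ > 0, ∃ J₁ : ℕ, ∀ J ≥ J₁,
    ∀ F : Fam m J, F.Mx a R τ → ∀ (S : Fin N → Type) (f : ∀ i, F.Ω → S i),
    (∀ i, H F.p (f i) ≤ B * J) →
    ∃ A : F.Ω → Prop, π₀ ≤ law F.p A True ∧ ∃ h : IsLaw (cond F.p A True),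
      (F.res A True h).Mx a R τ' ∧ ∀ i, ∃ h', Rg (cond F.p A True) (f i) h' (e * J)

/-- Regular maximal families with constant side information and rounded lines exist. -/
def REXStmt : Prop :=
  ∀ (m : ℕ) (a R : ℝ), 1 ≤ a → 0 < R → UBa m a R → LBa m a R → ∀ τ > 0, ∀ e > 0, ∀ J₀ : ℕ,
    ∃ J ≥ J₀, ∃ F : Fam m J, F.Mx a R τ ∧ F.Tr ∧ F.Rb (e * J)

open Classical in
/-- (1.4.4) Events of probability at least `exp (-cJ)` are allowed in regular families. -/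
def RESStmt : Prop :=
  ∀ (m J : ℕ) (F : Fam m J) (a e c τ : ℝ), 0 ≤ a → 0 ≤ e → 0 ≤ c → F.Tr → F.Rb e → F.Tm τ →
    ∀ A : F.Ω → Prop, Real.exp (-c) ≤ law F.p A True →
      ∃ h : IsLaw (cond F.p A True), (F.res A True h).Tr ∧ (F.res A True h).Rb (e + c) ∧
        (F.res A True h).Tm (τ + 4 * e + c) ∧
        F.Ga a - (1 + a) * (4 * e + c) ≤ (F.res A True h).Ga a

/-- (1.4.5) Fans are pointwise nonatomic, outside exponentially small events. -/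
def RPTStmt : Prop :=
  ∀ (m : ℕ) (a R : ℝ), 1 ≤ a → 0 < R → UBa m a R → ∀ x ε : ℝ, 0 < x → 0 < ε → ∃ c > 0, ∃ J₁ : ℕ,
    ∀ J ≥ J₁, ∀ F : Fam m J, F.Mx a R c → F.Tr → F.Rb (c * J) → ∀ q : ℕ, q ≤ J → x * J ≤ q →
      (∑ ω, if Real.exp (-((R / a - ε) * q)) < cpr F.p (F.D q) (fun ω => (F.X J ω, F.W ω)) ω
        then F.p ω else 0) ≤ Real.exp (-(c * J))

/-- Two samples with a common label: marginals, exchangeability, independence. -/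
def CPYStmt : Prop :=
  ∀ (Ω S : Type) [Fintype Ω] (p : Ω → ℝ), IsLaw p → ∀ c : Ω → S,
    IsLaw (cpy p c) ∧ Marg (cpy p c) p Prod.fst ∧ Marg (cpy p c) p Prod.snd ∧
    (∀ w, cpy p c w.swap = cpy p c w) ∧
    (∀ w, 0 < cpy p c w → 0 < p w.1 ∧ 0 < p w.2 ∧ c w.1 = c w.2) ∧
    ∀ (U V : Type) (f : Ω → U) (g : Ω → V),
      CH (cpy p c) (fun w => f w.1) (fun w => (g w.2, c w.1)) = CH p f c

/-- (1.5.1) Exchangeable samples. -/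
def CT3Stmt : Prop :=
  ∀ (Ω S S' U V : Type) [Fintype Ω] (p : Ω → ℝ), IsLaw p →
    ∀ (c : Ω → S) (b : Ω → U) (x : Ω → V) (s : Ω × Ω → S') (A : ℝ),
      Det (cpy p c) s (fun w => s w.swap) →
      CH (cpy p c) (fun w => b w.2) (fun w => (b w.1, s w)) ≤ A →
      CH (cpy p c) (fun w => x w.2) (fun w => (b w.1, s w)) ≤
        CH (cpy p c) (fun w => x w.1) (fun w => (b w.1, s w)) + A

/-- (1.5.3) (ii) Averages of a function of two indices along shifted graphs. -/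
def PSGStmt : Prop :=
  ∀ (f : ℕ → ℕ → ℝ) (M : ℝ), (∀ i j i' j', i ≤ i' → j ≤ j' → f i' j' ≤ f i j) →
    (∀ i j, 0 ≤ f i j ∧ f i j ≤ M) → ∀ (r : ℕ → ℕ), Monotone r → ∀ (n x : ℕ),
      ∑ i ∈ range n, ∑ s ∈ range x, (f i (r i + s) - f (i + 1) (r i + s)) ≤ x * M

/-- (1.5.3) (iii) Sums over disjoint bands. -/
def PBAStmt : Prop :=
  ∀ (f : ℕ → ℕ → ℝ) (M : ℝ), (∀ i j i' j', i ≤ i' → j ≤ j' → f i' j' ≤ f i j) →
    (∀ i j, 0 ≤ f i j ∧ f i j ≤ M) → ∀ (w r : ℕ → ℕ) (n x : ℕ), Monotone w →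
      (∀ i, r i + x ≤ r (i + 1)) →
      ∑ i ∈ range n, (f (w i) (r i) - f (w i) (r i + x)) ≤ M

end Pool.KA
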